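import Pool.Agent.Q170.WD.Dense

/-!
# Zariski dense orbits are generic up to a sparse set, with a uniform rate

Let `X` be a set of points of `ℙ^N(K)` and `Φ : X → X` a map which is given locally by forms. For example
`X` is the set of the points of an irreducible projective variety with a well-defined orbit under a rational
self-map `Φ`. Let the closure of the orbit of `α ∈ X` be irreducible (for example the orbit is Zariski dense in an
irreducible variety), and let `V` be a closed set of dimension at most `k` which does not contain the orbit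
(for example a proper subvariety). Then at most `C T / L` elements `n` of every interval of length `T` satisfy
`Φ^n(α) ∈ V`, where `L` is the `k`-fold iterated logarithm of `T`; and at most
`C T ^ (1 - 1 / (κ + 4) ^ k)` if the iterates `Φ^g` are given locally by forms of degree at most `b g ^ κ`. The
constants `C` depend only on `N`, the degrees and `k`.
-/

set_option autoImplicit false

open MvPolynomial

namespace Pool.Agent.Results.MP_f4ff90_ag.DenseOrbitsWithRate

/-- The points of the projective space over `K`. -/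
abbrev PN (K : Type) [Field K] (N : ℕ) : Type := Projectivization K (Fin (N + 1) → K)

/-- `v` is a vector of homogeneous coordinates of the point `x`. -/
def Coord {K : Type} [Field K] {N : ℕ} (x : PN K N) (v : Fin (N + 1) → K) : Prop :=
  ∃ h : v ≠ 0, Projectivization.mk K v h = x

/-- On the part of `X` where the form `g` is not zero, the map `Ψ` is given by the forms `F i`; the
degree of the `F i` plus the degree of `g` is at most `D`. -/
def IsChart {K : Type} [Field K] {N : ℕ} (D : ℕ) (X : Set (PN K N)) (Ψ : PN K N → PN K N)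
    (F : Fin (N + 1) → MvPolynomial (Fin (N + 1)) K) (g : MvPolynomial (Fin (N + 1)) K) : Prop :=
  ∃ d e : ℕ, (∀ i, (F i).IsHomogeneous d) ∧ g.IsHomogeneous e ∧ d + e ≤ D ∧
    ∀ y ∈ X, eval y.rep g ≠ 0 → Coord (Ψ y) fun i => eval y.rep (F i)

/-- `Ψ` is given on `X` locally by forms of degree at most `D`. -/
def GivenInDegree {K : Type} [Field K] {N : ℕ} (D : ℕ) (X : Set (PN K N))
    (Ψ : PN K N → PN K N) : Prop :=
  ∀ x ∈ X, ∃ F g, eval x.rep g ≠ 0 ∧ IsChart D X Ψ F g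

/-- A closed subset of `ℙ^N`, given by forms. -/
structure Closed (K : Type) [Field K] (N : ℕ) where
  forms : Set (MvPolynomial (Fin (N + 1)) K)
  homogeneous : ∀ g ∈ forms, ∃ e : ℕ, g.IsHomogeneous e

/-- The point `x` is in `V`. -/
def Closed.Has {K : Type} [Field K] {N : ℕ} (V : Closed K N) (x : PN K N) : Prop :=
  ∀ g ∈ V.forms, eval x.rep g = 0

/-- The equations of `V` have degree at most `e`. -/
def Closed.DegreeLE {K : Type} [Field K] {N : ℕ} (V : Closed K N) (e : ℕ) : Prop :=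
  ∀ g ∈ V.forms, g.totalDegree ≤ e

/-- The dimension of `V` is at most `k` (the Krull dimension of the ring of the cone is at most
`k + 1`). -/
def Closed.DimLE {K : Type} [Field K] {N : ℕ} (V : Closed K N) (k : ℕ) : Prop :=
  ringKrullDim (MvPolynomial (Fin (N + 1)) K ⧸ Ideal.span V.forms) ≤ ((k + 1 : ℕ) : WithBot ℕ∞)

/-- The Zariski closure of the orbit of `α` is irreducible: if the orbit is contained in the union of
two closed sets then it is contained in one of them. -/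
def IrreducibleClosure {K : Type} [Field K] {N : ℕ} (Φ : PN K N → PN K N) (α : PN K N) : Prop :=
  ∀ V W : Closed K N, (∀ n, V.Has (Φ^[n] α) ∨ W.Has (Φ^[n] α)) →
    (∀ n, V.Has (Φ^[n] α)) ∨ ∀ n, W.Has (Φ^[n] α)

theorem irrOrbit {K : Type} [Field K] {N : ℕ} {Φ : PN K N → PN K N} {α : PN K N}
    (h : IrreducibleClosure Φ α) (X : Set (PN K N)) (hX : ∀ n, Φ^[n] α ∈ X) :
    Pool.Agent.Q170.WD.IrrOrbit X (fun n => Φ^[n] α) := by
  rintro A B ⟨S, hS, hS'⟩ ⟨T, hT, hT'⟩ hAB
  rcases h ⟨S, hS⟩ ⟨T, hT⟩ (fun n => by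
    rcases hAB n with h1 | h1
    · exact Or.inl ((hS' _ (hX n)).1 h1)
    · exact Or.inr ((hT' _ (hX n)).1 h1)) with h2 | h2
  · exact Or.inl (fun n => (hS' _ (hX n)).2 (h2 n))
  · exact Or.inr (fun n => (hT' _ (hX n)).2 (h2 n))

theorem given {K : Type} [Field K] {N D : ℕ} {X : Set (PN K N)} {Ψ : PN K N → PN K N}
    (h : GivenInDegree D X Ψ) : Pool.Agent.Q170.WD.Given D X Ψ := by
  intro x hx
  obtain ⟨F, g, hg, d, e, h1, h2, h3, h4⟩ := h x hx
  exact ⟨F, g, d, e, h1, h2, h3, hg, h4⟩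

theorem reps {K : Type} [Field K] {N D : ℕ} {X : Set (PN K N)} {Φ : PN K N → PN K N}
    (hmaps : ∀ x ∈ X, Φ x ∈ X) (hG : GivenInDegree D X Φ) :
    ∀ g, ∀ x ∈ X, ∃ H, Pool.Agent.Q170.WD.Rep X Φ (Pool.Agent.Q170.WD.vL K) g H ∧
      ∃ i, eval (Pool.Agent.Q170.WD.vL K x) (H i) ≠ 0 := by
  have hD0 : Pool.Agent.Q170.WD.BdP X Φ (Pool.Agent.Q170.WD.vL K)
      (fun g => (2 ^ (D + 1)) ^ g) := by
    refine Pool.Agent.Q170.WD.bdP_exp hmaps (fun x _ => Pool.Agent.Q170.WD.vL_ne _ x)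
      (2 ^ (D + 1)) Nat.one_le_two_pow (fun x hx => ?_)
    obtain ⟨H, h1, h2, h3⟩ := Pool.Agent.Q170.WD.Given.rep K (Φ := Φ) (g := 1) (given hG) x hx
    exact ⟨H, h1, fun i => (h2 i).trans Nat.lt_two_pow_self.le, h3⟩
  intro g x hx
  obtain ⟨H, h1, -, h3⟩ := hD0.rep g x hx
  exact ⟨H, h1, h3⟩

/-- all the returns are exceptional -/
theorem exc {K : Type} [Field K] {N D : ℕ} {X : Set (PN K N)} {Φ : PN K N → PN K N}
    (hmaps : ∀ x ∈ X, Φ x ∈ X) (hG : GivenInDegree D X Φ) (V : Closed K N) {α : PN K N}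
    (hα : α ∈ X) (hirr : IrreducibleClosure Φ α) (hV : ¬ ∀ n, V.Has (Φ^[n] α)) (T : ℕ) :
    {n | V.Has (Φ^[n] α)} = Pool.Agent.Q170.WD.Exc Φ V.forms T α := by
  have hX : ∀ n, Φ^[n] α ∈ X := by
    intro n
    induction n with
    | zero => exact hα
    | succ n ih => rw [Function.iterate_succ_apply']; exact hmaps _ ih
  ext n
  refine ⟨fun hn => ⟨hn, fun g hg _ => ?_⟩, fun hn => hn.1⟩
  by_contra hcon
  push Not at hcon
  apply hV
  exact Pool.Agent.Q170.WD.no_prog hmaps (reps hmaps hG) hα (irrOrbit hirr X hX)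
    (A := {x | V.Has x}) ⟨V.forms, V.homogeneous, fun x _ => Iff.rfl⟩ hg hcon

theorem result :
    (∀ N D e k : ℕ, ∃ C : ℕ, ∀ (K : Type) [Field K] (X : Set (PN K N)) (Φ : PN K N → PN K N)
      (V : Closed K N), (∀ x ∈ X, Φ x ∈ X) → GivenInDegree D X Φ → V.DegreeLE e → V.DimLE k →
      ∀ α ∈ X, IrreducibleClosure Φ α → (¬ ∀ n, V.Has (Φ^[n] α)) → ∀ M T : ℕ,
        ({n | V.Has (Φ^[n] α)} ∩ Set.Ico M (M + T)).ncard * (Nat.log 2)^[k] T ≤ C * T) ∧
    (∀ N b κ e k : ℕ, ∃ C : ℕ, ∀ (K : Type) [Field K] (X : Set (PN K N)) (Φ : PN K N → PN K N)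
      (V : Closed K N), (∀ x ∈ X, Φ x ∈ X) →
      (∀ g, 1 ≤ g → GivenInDegree (b * g ^ κ) X (Φ^[g])) → V.DegreeLE e → V.DimLE k →
      ∀ α ∈ X, IrreducibleClosure Φ α → (¬ ∀ n, V.Has (Φ^[n] α)) → ∀ M T : ℕ, 1 ≤ T →
        (({n | V.Has (Φ^[n] α)} ∩ Set.Ico M (M + T)).ncard : ℝ) ≤
          C * (T : ℝ) ^ (1 - 1 / ((κ : ℝ) + 4) ^ k)) := by
  refine ⟨fun N D e k => ?_, fun N b κ e k => ?_⟩
  · obtain ⟨C, hC⟩ := Pool.Agent.Q170.WD.main_exp (N + 1) D e k
    refine ⟨C, fun K _ X Φ V hmaps hG hV hk α hα hirr hnot M T => ?_⟩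
    rw [exc hmaps hG V hα hirr hnot T]
    exact hC K X Φ hmaps (given hG) V.forms (fun f hf => ⟨V.homogeneous f hf, hV f hf⟩) hk α hα M T
  · obtain ⟨C, hC⟩ := Pool.Agent.Q170.WD.main_pol (N + 1) b κ e k
    refine ⟨C, fun K _ X Φ V hmaps hG hV hk α hα hirr hnot M T hT => ?_⟩
    rw [exc hmaps (hG 1 le_rfl) V hα hirr hnot T]
    exact hC K X Φ hmaps (fun g hg => given (hG g hg)) V.forms
      (fun f hf => ⟨V.homogeneous f hf, hV f hf⟩) hk α hα M T hT

end Pool.Agent.Results.MP_f4ff90_ag.DenseOrbitsWithRate
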